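import Mathlib

set_option autoImplicit false

namespace Pool.Agent.T2H79.AD

open Finset

/-- maps that send edges of `F` to related pairs -/
abbrev HomS {k : ℕ} {V : Type*} (F : SimpleGraph (Fin k)) (R : V → V → Prop) : Type _ :=
  {f : Fin k → V // ∀ a b, F.Adj a b → R (f a) (f b)}

/-- their number -/
noncomputable def hc {k : ℕ} {V : Type*} (F : SimpleGraph (Fin k)) (R : V → V → Prop) : ℕ :=
  Nat.card (HomS F R)

/-- homomorphism counts are multiplicative for tensor powers -/
theorem hc_pow {k : ℕ} {A ι : Type*} [Fintype ι] (F : SimpleGraph (Fin k)) (r : A → A → Prop) :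
    hc F (fun x y : ι → A => ∀ i, r (x i) (y i)) = (hc F r) ^ (Fintype.card ι) := by
  unfold hc
  have e : HomS F (fun x y : ι → A => ∀ i, r (x i) (y i)) ≃ (ι → HomS F r) :=
    { toFun := fun f i => ⟨fun a => f.1 a i, fun a b h => f.2 a b h i⟩
      invFun := fun g => ⟨fun a i => (g i).1 a, fun a b h i => (g i).2 a b h⟩
      left_inv := fun f => rfl
      right_inv := fun g => rfl }
  rw [Nat.card_congr e, Nat.card_pi]
  simp

/-- fibre decomposition -/
theorem hc_fiber {k : ℕ} {V X : Type*} [Finite V] [Fintype X] (F : SimpleGraph (Fin k))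
    (R : X → X → Prop) (π : V → X) [Fintype (HomS F R)] :
    hc F (fun u v => R (π u) (π v)) = ∑ g : HomS F R, ∏ a, Nat.card {v : V // π v = g.1 a} := by
  unfold hc
  have e : HomS F (fun u v => R (π u) (π v)) ≃ (Σ g : HomS F R, ∀ a, {v : V // π v = g.1 a}) :=
    { toFun := fun f => ⟨⟨fun a => π (f.1 a), fun a b h => f.2 a b h⟩, fun a => ⟨f.1 a, rfl⟩⟩
      invFun := fun g => ⟨fun a => (g.2 a).1, fun a b h => by
        show R (π (g.2 a).1) (π (g.2 b).1)
        rw [(g.2 a).2, (g.2 b).2]; exact g.1.2 a b h⟩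
      left_inv := fun f => rfl
      right_inv := by
        rintro ⟨⟨g, hg⟩, h⟩
        obtain ⟨v, hv, rfl⟩ : ∃ (v : Fin k → V) (hv : ∀ a, π (v a) = g a), h = fun a => ⟨v a, hv a⟩ :=
          ⟨fun a => (h a).1, fun a => (h a).2, rfl⟩
        obtain rfl : (fun a => π (v a)) = g := funext hv
        rfl }
  rw [Nat.card_congr e, Nat.card_sigma]
  refine Finset.sum_congr rfl fun g _ => ?_
  rw [Nat.card_pi]

theorem hc_sandwich {k : ℕ} {V X : Type*} [Finite V] [Finite X] (F : SimpleGraph (Fin k))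
    (R : X → X → Prop) (π : V → X) (q : ℕ)
    (h1 : ∀ x, q ≤ Nat.card {v : V // π v = x}) (h2 : ∀ x, Nat.card {v : V // π v = x} ≤ q + 1) :
    hc F R * q ^ k ≤ hc F (fun u v => R (π u) (π v)) ∧
      hc F (fun u v => R (π u) (π v)) ≤ hc F R * (q + 1) ^ k := by
  classical
  have := Fintype.ofFinite X
  have : Fintype (HomS F R) := Fintype.ofFinite _
  rw [hc_fiber F R π]
  have e1 : hc F R = ∑ g : HomS F R, 1 := by
    unfold hc
    rw [Nat.card_eq_fintype_card]; simp
  rw [e1, Finset.sum_mul, Finset.sum_mul]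
  constructor
  · refine Finset.sum_le_sum fun g _ => ?_
    rw [one_mul]
    calc q ^ k = ∏ _a : Fin k, q := by simp
      _ ≤ _ := Finset.prod_le_prod (fun _ _ => Nat.zero_le _) (fun a _ => h1 _)
  · refine Finset.sum_le_sum fun g _ => ?_
    rw [one_mul]
    calc _ ≤ ∏ _a : Fin k, (q + 1) := Finset.prod_le_prod (fun _ _ => Nat.zero_le _) (fun a _ => h2 _)
      _ = (q + 1) ^ k := by simp

/-- complete graphs -/
theorem hc_top (k c : ℕ) : hc (⊤ : SimpleGraph (Fin k)) (fun x y : Fin c => x ≠ y) = c.descFactorial k := by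
  unfold hc
  have e : HomS (⊤ : SimpleGraph (Fin k)) (fun x y : Fin c => x ≠ y) ≃ (Fin k ↪ Fin c) :=
    { toFun := fun f => ⟨f.1, fun a b h => by
        by_contra hne
        exact f.2 a b hne h⟩
      invFun := fun g => ⟨g, fun a b h h' => h (g.injective h')⟩
      left_inv := fun f => rfl
      right_inv := fun g => rfl }
  rw [Nat.card_congr e, Nat.card_eq_fintype_card, Fintype.card_embedding_eq]
  simp

theorem card_ne_two (c : ℕ) (x y : Fin c) : Nat.card {z : Fin c // z ≠ x ∧ z ≠ y} =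
    if x = y then c - 1 else c - 2 := by
  classical
  rw [Nat.card_eq_fintype_card, Fintype.card_subtype]
  have : (Finset.univ.filter fun z : Fin c => z ≠ x ∧ z ≠ y) = ({x, y} : Finset (Fin c))ᶜ := by
    ext z
    simp
  rw [this, Finset.card_compl, Fintype.card_fin]
  split_ifs with h
  · subst h; simp
  · rw [Finset.card_pair h]

/-- the four-cycle -/
theorem hc_cycle (c : ℕ) (hc1 : 1 ≤ c) : hc (SimpleGraph.cycleGraph 4) (fun x y : Fin c => x ≠ y) =
    (c - 1) ^ 4 + (c - 1) := by
  classical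
  have hadj : ∀ a b : Fin 4, (SimpleGraph.cycleGraph 4).Adj a b ↔ (a = b + 1 ∨ b = a + 1) := by
    decide
  have e : HomS (SimpleGraph.cycleGraph 4) (fun x y : Fin c => x ≠ y) ≃
      (Σ p : Fin c × Fin c, {z : Fin c // z ≠ p.1 ∧ z ≠ p.2} × {z : Fin c // z ≠ p.1 ∧ z ≠ p.2}) :=
    { toFun := fun f => ⟨(f.1 0, f.1 2), ⟨f.1 1, f.2 1 0 (by rw [hadj]; decide), f.2 1 2 (by rw [hadj]; decide)⟩,
        ⟨f.1 3, f.2 3 0 (by rw [hadj]; decide), f.2 3 2 (by rw [hadj]; decide)⟩⟩
      invFun := fun g => ⟨![g.1.1, g.2.1.1, g.1.2, g.2.2.1], by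
        obtain ⟨⟨x, y⟩, ⟨u, hu1, hu2⟩, ⟨v, hv1, hv2⟩⟩ := g
        simp only at hu1 hu2 hv1 hv2
        intro a b hab
        rw [hadj] at hab
        fin_cases a <;> fin_cases b <;> simp at hab ⊢ <;> first | exact hu1 | exact hu2 | exact hv1 | exact hv2 | exact hu1.symm | exact hu2.symm | exact hv1.symm | exact hv2.symm⟩
      left_inv := by
        intro f
        apply Subtype.ext
        funext a
        fin_cases a <;> rfl
      right_inv := by
        rintro ⟨⟨x, y⟩, ⟨u, hu1, hu2⟩, ⟨v, hv1, hv2⟩⟩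
        rfl }
  unfold hc
  rw [Nat.card_congr e, Nat.card_sigma]
  simp only [Nat.card_prod, card_ne_two]
  rw [Fintype.sum_prod_type]
  have : ∀ x : Fin c, (∑ y : Fin c, (if x = y then c - 1 else c - 2) * (if x = y then c - 1 else c - 2)) =
      (c - 1) * (c - 1) + (c - 1) * ((c - 2) * (c - 2)) := by
    intro x
    rw [← Finset.add_sum_erase _ _ (Finset.mem_univ x)]
    congr 1
    · simp
    · rw [Finset.sum_congr rfl (g := fun _ => (c - 2) * (c - 2))]
      · rw [Finset.sum_const, Finset.card_erase_of_mem (Finset.mem_univ _)]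
        simp
      · intro y hy
        have hne : x ≠ y := (Finset.ne_of_mem_erase hy).symm
        simp [hne]
  simp only [this, Finset.sum_const, Finset.card_univ, Fintype.card_fin, smul_eq_mul]
  obtain ⟨d, rfl⟩ := Nat.exists_eq_add_of_le' hc1
  rcases d with _ | d
  · simp
  · simp only [Nat.add_sub_cancel]
    have : d + 1 + 1 - 2 = d := by omega
    rw [this]
    ring

end Pool.Agent.T2H79.AD
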