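import Mathlib
import Pool.Agent.T2H79.ADHom

set_option autoImplicit false

namespace Pool.Agent.T2H79.AD

open Finset

theorem single_count {k c : ℕ} (a b : Fin k) (hab : a ≠ b) :
    (univ.filter (fun f : Fin k → Fin c => f a = f b)).card * c = c ^ k := by
  classical
  have e : {f : Fin k → Fin c // f a = f b} × Fin c ≃ (Fin k → Fin c) :=
    { toFun := fun p => Function.update p.1.1 b p.2
      invFun := fun f => (⟨Function.update f b (f a), by
        rw [Function.update_of_ne hab, Function.update_self]⟩, f b)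
      left_inv := by
        rintro ⟨⟨f, hf⟩, x⟩
        refine Prod.ext (Subtype.ext ?_) ?_
        · funext i
          by_cases hi : i = b
          · subst hi
            simp [Function.update_of_ne hab, hf]
          · simp [Function.update_of_ne hi]
        · simp
      right_inv := by
        intro f
        funext i
        by_cases hi : i = b
        · subst hi; simp
        · simp [Function.update_of_ne hi] }
  have h := Fintype.card_congr e
  rw [Fintype.card_prod, Fintype.card_subtype] at h
  simpa using h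

theorem pair_count {k c : ℕ} (a b a' b' : Fin k) (h1 : b' ≠ a) (h2 : b' ≠ b) (h3 : a' ≠ b') :
    (univ.filter (fun f : Fin k → Fin c => f a = f b ∧ f a' = f b')).card * c ≤
      (univ.filter (fun f : Fin k → Fin c => f a = f b)).card := by
  classical
  have h : Fintype.card ({f : Fin k → Fin c // f a = f b ∧ f a' = f b'} × Fin c) ≤
      Fintype.card {f : Fin k → Fin c // f a = f b} := by
    refine Fintype.card_le_of_injective (fun p => ⟨Function.update p.1.1 b' p.2, by
      rw [Function.update_of_ne h1.symm, Function.update_of_ne h2.symm]; exact p.1.2.1⟩) ?_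
    rintro ⟨⟨f, hf1, hf2⟩, x⟩ ⟨⟨g, hg1, hg2⟩, y⟩ hfg
    have hfg' : Function.update f b' x = Function.update g b' y := congrArg Subtype.val hfg
    have hx : x = y := by
      have := congrFun hfg' b'
      simpa using this
    have hoff : ∀ i, i ≠ b' → f i = g i := by
      intro i hi
      have := congrFun hfg' i
      simpa [Function.update_of_ne hi] using this
    have hfg2 : f = g := by
      funext i
      by_cases hi : i = b'
      · subst hi
        rw [← hf2, ← hg2]
        exact hoff _ h3
      · exact hoff i hi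
    subst hfg2
    subst hx
    rfl
  rw [Fintype.card_prod, Fintype.card_subtype, Fintype.card_subtype] at h
  simpa using h

open Classical in
/-- ordered edges -/
noncomputable def oe {k : ℕ} (F : SimpleGraph (Fin k)) : Finset (Fin k × Fin k) :=
  univ.filter (fun e => e.1 < e.2 ∧ F.Adj e.1 e.2)

theorem mem_oe {k : ℕ} (F : SimpleGraph (Fin k)) (e : Fin k × Fin k) :
    e ∈ oe F ↔ e.1 < e.2 ∧ F.Adj e.1 e.2 := by
  simp [oe]

theorem card_oe {k : ℕ} (F : SimpleGraph (Fin k)) : (oe F).card = F.edgeSet.ncard := by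
  classical
  have h : F.edgeSet = (fun e : Fin k × Fin k => s(e.1, e.2)) '' (oe F : Set (Fin k × Fin k)) := by
    ext e
    induction e using Sym2.ind with
    | _ x y =>
      rw [SimpleGraph.mem_edgeSet]
      constructor
      · intro h
        rcases lt_trichotomy x y with hlt | heq | hgt
        · exact ⟨(x, y), by rw [mem_coe, mem_oe]; exact ⟨hlt, h⟩, rfl⟩
        · subst heq; exact absurd h (F.irrefl)
        · exact ⟨(y, x), by rw [mem_coe, mem_oe]; exact ⟨hgt, h.symm⟩, Sym2.eq_swap⟩
      · rintro ⟨⟨a, b⟩, hab, he⟩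
        rw [mem_coe, mem_oe] at hab
        rw [← SimpleGraph.mem_edgeSet, ← he, SimpleGraph.mem_edgeSet]
        exact hab.2
  rw [h, Set.ncard_image_of_injOn, Set.ncard_coe_finset]
  rintro ⟨a, b⟩ hab ⟨a', b'⟩ hab' he
  rw [mem_coe, mem_oe] at hab hab'
  simp only [Sym2.eq_iff] at he
  rcases he with ⟨rfl, rfl⟩ | ⟨rfl, rfl⟩
  · rfl
  · exact absurd hab.1 (not_lt.2 hab'.1.le)

/-- Bonferroni type bound for the number of proper colourings with `c` colours -/
theorem hc_bound {k c : ℕ} (hc1 : 1 ≤ c) (F : SimpleGraph (Fin k)) :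
    (hc F (fun x y : Fin c => x ≠ y) : ℝ) ≤
      (c : ℝ) ^ k * (1 - (F.edgeSet.ncard : ℝ) / c + (F.edgeSet.ncard : ℝ) ^ 2 / c ^ 2) := by
  classical
  have hc0 : (0 : ℝ) < c := by exact_mod_cast hc1
  rw [← card_oe F]
  set P := oe F with hP
  let ind : (Fin k × Fin k) → (Fin k → Fin c) → ℝ := fun e f => if f e.1 = f e.2 then 1 else 0
  let B : (Fin k → Fin c) → ℝ := fun f => ∑ e ∈ P, ind e f
  have h1 : (hc F (fun x y : Fin c => x ≠ y) : ℝ) ≤ ∑ f : Fin k → Fin c, (B f - 1) ^ 2 := by
    have e1 : (hc F (fun x y : Fin c => x ≠ y) : ℝ) =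
        ∑ f : Fin k → Fin c, if (∀ a b, F.Adj a b → f a ≠ f b) then (1 : ℝ) else 0 := by
      unfold hc
      rw [Nat.card_eq_fintype_card, Fintype.card_subtype, Finset.sum_boole]
    rw [e1]
    refine Finset.sum_le_sum fun f _ => ?_
    split_ifs with h
    · have : B f = 0 := by
        refine Finset.sum_eq_zero fun e he => ?_
        rw [mem_oe] at he
        simp [ind, h _ _ he.2]
      rw [this]; norm_num
    · positivity
  have hind : ∀ e ∈ P, ∑ f : Fin k → Fin c, ind e f = (c : ℝ) ^ k / c := by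
    intro e he
    rw [mem_oe] at he
    simp only [ind, Finset.sum_boole]
    rw [eq_div_iff hc0.ne']
    exact_mod_cast single_count e.1 e.2 he.1.ne
  have hpair : ∀ e ∈ P, ∀ e' ∈ P, e ≠ e' →
      ∑ f : Fin k → Fin c, ind e f * ind e' f ≤ (c : ℝ) ^ k / c ^ 2 := by
    intro e he e' he' hne
    have hs := hind e he
    rw [mem_oe] at he he'
    have e2 : ∀ f : Fin k → Fin c, ind e f * ind e' f =
        if (f e.1 = f e.2 ∧ f e'.1 = f e'.2) then 1 else 0 := by
      intro f
      simp only [ind]
      split_ifs <;> simp_all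
    simp only [e2, Finset.sum_boole]
    simp only [ind, Finset.sum_boole] at hs
    have key : ((univ.filter (fun f : Fin k → Fin c => f e.1 = f e.2 ∧ f e'.1 = f e'.2)).card : ℝ) * c ≤
        (univ.filter (fun f : Fin k → Fin c => f e.1 = f e.2)).card := by
      by_cases hb : e'.2 ≠ e.1 ∧ e'.2 ≠ e.2
      · exact_mod_cast pair_count e.1 e.2 e'.1 e'.2 hb.1 hb.2 he'.1.ne
      · have ha : e'.1 ≠ e.1 ∧ e'.1 ≠ e.2 := by
          by_contra hcon
          apply hne
          have h3 := he.1
          have h4 := he'.1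
          rw [not_and_or, not_not, not_not] at hb hcon
          rcases hb with hb | hb <;> rcases hcon with hcon | hcon
          · omega
          · omega
          · exact Prod.ext hcon.symm hb.symm
          · omega
        have h5 := pair_count (c := c) e.1 e.2 e'.2 e'.1 ha.1 ha.2 he'.1.ne'
        have h6 : (univ.filter (fun f : Fin k → Fin c => f e.1 = f e.2 ∧ f e'.1 = f e'.2)) =
            (univ.filter (fun f : Fin k → Fin c => f e.1 = f e.2 ∧ f e'.2 = f e'.1)) := by
          ext f; simp [eq_comm]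
        rw [h6]
        exact_mod_cast h5
    rw [hs] at key
    rw [le_div_iff₀ (by positivity)]
    calc _ = (((univ.filter (fun f : Fin k → Fin c => f e.1 = f e.2 ∧ f e'.1 = f e'.2)).card : ℝ) * c) * c := by ring
      _ ≤ ((c : ℝ) ^ k / c) * c := by gcongr
      _ = (c : ℝ) ^ k := by field_simp
  have hB1 : ∑ f : Fin k → Fin c, B f = P.card * ((c : ℝ) ^ k / c) := by
    simp only [B]
    rw [Finset.sum_comm, Finset.sum_congr rfl hind]
    simp
  have hB2 : ∑ f : Fin k → Fin c, (B f) ^ 2 ≤ P.card * ((c : ℝ) ^ k / c) +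
      (P.card : ℝ) ^ 2 * ((c : ℝ) ^ k / c ^ 2) := by
    have e3 : ∀ f : Fin k → Fin c, (B f) ^ 2 = ∑ e ∈ P, ∑ e' ∈ P, ind e f * ind e' f := by
      intro f
      simp only [B]
      rw [sq, Finset.sum_mul_sum]
    simp only [e3]
    rw [Finset.sum_comm]
    have e4 : ∀ e ∈ P, ∑ f : Fin k → Fin c, ∑ e' ∈ P, ind e f * ind e' f ≤
        (c : ℝ) ^ k / c + P.card * ((c : ℝ) ^ k / c ^ 2) := by
      intro e he
      rw [Finset.sum_comm, ← Finset.add_sum_erase _ _ he]
      have e5 : ∑ f : Fin k → Fin c, ind e f * ind e f = (c : ℝ) ^ k / c := by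
        rw [← hind e he]
        refine Finset.sum_congr rfl fun f _ => ?_
        simp only [ind]
        split_ifs <;> simp
      rw [e5]
      gcongr
      calc ∑ e' ∈ P.erase e, ∑ f : Fin k → Fin c, ind e f * ind e' f
          ≤ ∑ _e' ∈ P.erase e, (c : ℝ) ^ k / c ^ 2 := by
            refine Finset.sum_le_sum fun e' he' => ?_
            rw [Finset.mem_erase] at he'
            exact hpair e he e' he'.2 he'.1.symm
        _ = (P.erase e).card * ((c : ℝ) ^ k / c ^ 2) := by simp
        _ ≤ P.card * ((c : ℝ) ^ k / c ^ 2) := by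
            gcongr
            exact Finset.erase_subset _ _
    calc _ ≤ ∑ _e ∈ P, ((c : ℝ) ^ k / c + P.card * ((c : ℝ) ^ k / c ^ 2)) := Finset.sum_le_sum e4
      _ = _ := by
        rw [Finset.sum_const, nsmul_eq_mul]; ring
  have htot : ∑ f : Fin k → Fin c, (B f - 1) ^ 2 =
      ∑ f : Fin k → Fin c, (B f) ^ 2 - 2 * ∑ f : Fin k → Fin c, B f + (c : ℝ) ^ k := by
    have : ∀ f : Fin k → Fin c, (B f - 1) ^ 2 = (B f) ^ 2 - 2 * B f + 1 := fun f => by ring
    simp only [this]
    rw [Finset.sum_add_distrib, Finset.sum_sub_distrib, ← Finset.mul_sum]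
    simp
  rw [htot, hB1] at h1
  refine h1.trans ?_
  have : (c : ℝ) ^ k * (1 - (P.card : ℝ) / c + (P.card : ℝ) ^ 2 / c ^ 2) =
      (P.card * ((c : ℝ) ^ k / c) + (P.card : ℝ) ^ 2 * ((c : ℝ) ^ k / c ^ 2)) -
        2 * (P.card * ((c : ℝ) ^ k / c)) + (c : ℝ) ^ k := by
    field_simp
    ring
  rw [this]
  linarith

end Pool.Agent.T2H79.AD
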