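import Mathlib
import Pool.Agent.T2H79.ADBound

set_option autoImplicit false

namespace Pool.Agent.T2H79.AD

open Finset

/-- the colour vector of a vertex -/
noncomputable def col (N n : ℕ) (u : Fin n) : Fin (N ^ 2) → Fin (N + 1) :=
  finFunctionFinEquiv.symm ⟨u.val % (N + 1) ^ (N ^ 2), Nat.mod_lt _ (by positivity)⟩

/-- the blow-up of the tensor power of a complete graph -/
noncomputable def blow (N n : ℕ) : SimpleGraph (Fin n) where
  Adj u v := u ≠ v ∧ ∀ i, col N n u i ≠ col N n v i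
  symm := ⟨fun _ _ h => ⟨h.1.symm, fun i => (h.2 i).symm⟩⟩
  loopless := ⟨fun _ h => h.1 rfl⟩

theorem blow_adj {N n : ℕ} (hN : 1 ≤ N) (u v : Fin n) :
    (blow N n).Adj u v ↔ ∀ i, col N n u i ≠ col N n v i := by
  constructor
  · intro h; exact h.2
  · intro h
    refine ⟨?_, h⟩
    rintro rfl
    exact h ⟨0, by positivity⟩ rfl

theorem fiber (N n : ℕ) (x : Fin (N ^ 2) → Fin (N + 1)) :
    n / (N + 1) ^ (N ^ 2) ≤ Nat.card {v : Fin n // col N n v = x} ∧
      Nat.card {v : Fin n // col N n v = x} ≤ n / (N + 1) ^ (N ^ 2) + 1 := by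
  classical
  set M := (N + 1) ^ (N ^ 2) with hM
  have hM0 : 0 < M := by rw [hM]; positivity
  have h1 : Nat.card {v : Fin n // col N n v = x} =
      n.count (fun u => u ≡ (finFunctionFinEquiv x).val [MOD M]) := by
    have e : {v : Fin n // col N n v = x} ≃
        {k : ℕ // k ∈ (range n).filter (fun u => u ≡ (finFunctionFinEquiv x).val [MOD M])} :=
      { toFun := fun v => ⟨v.1.1, by
          rw [Finset.mem_filter, Finset.mem_range]
          refine ⟨v.1.2, ?_⟩
          have hv := v.2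
          unfold col at hv
          rw [Equiv.symm_apply_eq] at hv
          have := congrArg Fin.val hv
          simp only at this
          show v.1.1 % M = _ % M
          rw [← this, Nat.mod_mod]⟩
        invFun := fun v => ⟨⟨v.1, by
          have := v.2
          rw [Finset.mem_filter, Finset.mem_range] at this
          exact this.1⟩, by
          have hv := v.2
          rw [Finset.mem_filter, Finset.mem_range] at hv
          unfold col
          rw [Equiv.symm_apply_eq]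
          apply Fin.ext
          have h2 : v.1 % M = (finFunctionFinEquiv x).val % M := hv.2
          rw [Nat.mod_eq_of_lt (finFunctionFinEquiv x).isLt] at h2
          exact h2⟩
        left_inv := fun v => rfl
        right_inv := fun v => rfl }
    rw [Nat.card_congr e, Nat.card_eq_fintype_card, Fintype.card_coe, Nat.count_eq_card_filter_range]
  rw [h1, Nat.count_modEq_card _ hM0]
  split_ifs <;> omega

/-- homomorphism density of `F` in the complete graph on `N + 1` vertices -/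
noncomputable def T {k : ℕ} (F : SimpleGraph (Fin k)) (N : ℕ) : ℝ :=
  (hc F (fun x y : Fin (N + 1) => x ≠ y) : ℝ) / ((N : ℝ) + 1) ^ k

theorem T_nonneg {k : ℕ} (F : SimpleGraph (Fin k)) (N : ℕ) : 0 ≤ T F N := by
  unfold T; positivity

theorem blow_sandwich {k : ℕ} (F : SimpleGraph (Fin k)) {N n : ℕ} (hN : 1 ≤ N) :
    let M := (N + 1) ^ (N ^ 2)
    (T F N) ^ (N ^ 2) * (((n / M : ℕ) : ℝ) * M) ^ k ≤ (hc F (blow N n).Adj : ℝ) ∧
      (hc F (blow N n).Adj : ℝ) ≤ (T F N) ^ (N ^ 2) * ((((n / M : ℕ) : ℝ) + 1) * M) ^ k := by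
  intro M
  have hadj : (blow N n).Adj = fun u v => (fun x y : Fin (N ^ 2) → Fin (N + 1) => ∀ i, x i ≠ y i)
      (col N n u) (col N n v) := by
    funext u v
    exact propext (blow_adj hN u v)
  have h := hc_sandwich F (fun x y : Fin (N ^ 2) → Fin (N + 1) => ∀ i, x i ≠ y i) (col N n)
    (n / M) (fun x => (fiber N n x).1) (fun x => (fiber N n x).2)
  rw [← hadj] at h
  rw [hc_pow F (fun x y : Fin (N + 1) => x ≠ y)] at h
  simp only [Fintype.card_fin] at h
  have hM : ((M : ℕ) : ℝ) = ((N : ℝ) + 1) ^ (N ^ 2) := by simp [M]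
  have e : (T F N) ^ (N ^ 2) * (M : ℝ) ^ k = (hc F (fun x y : Fin (N + 1) => x ≠ y) : ℝ) ^ (N ^ 2) := by
    rw [hM, T, div_pow, ← pow_mul, ← pow_mul, mul_comm (N ^ 2) k]
    field_simp
  constructor
  · rw [mul_pow, mul_comm (((n / M : ℕ) : ℝ) ^ k), ← mul_assoc, e]
    exact_mod_cast h.1
  · rw [mul_pow, mul_comm ((((n / M : ℕ) : ℝ) + 1) ^ k), ← mul_assoc, e]
    exact_mod_cast h.2

theorem M_sq_le {N : ℕ} (hN : 2 ≤ N) : ((N + 1) ^ (N ^ 2)) ^ 2 ≤ 2 ^ (N ^ 4) := by
  have h1 : N + 1 ≤ 2 ^ N := Nat.lt_two_pow_self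
  calc ((N + 1) ^ (N ^ 2)) ^ 2 ≤ ((2 ^ N) ^ (N ^ 2)) ^ 2 := by gcongr
    _ = 2 ^ (2 * N ^ 3) := by rw [← pow_mul, ← pow_mul]; congr 1; ring
    _ ≤ 2 ^ (N ^ 4) := by
      apply Nat.pow_le_pow_right (by norm_num)
      calc 2 * N ^ 3 ≤ N * N ^ 3 := by gcongr
        _ = N ^ 4 := by ring

/-- two-sided bound for the homomorphism counts -/
theorem blow_bounds {k : ℕ} (F : SimpleGraph (Fin k)) {N n : ℕ} (hN : 2 ≤ N) (hn : 2 ^ (N ^ 4) ≤ n) :
    (T F N) ^ (N ^ 2) * ((n : ℝ) * (1 - 1 / ((N : ℝ) + 1))) ^ k ≤ (hc F (blow N n).Adj : ℝ) ∧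
      (hc F (blow N n).Adj : ℝ) ≤ (T F N) ^ (N ^ 2) * ((n : ℝ) * (1 + 1 / ((N : ℝ) + 1))) ^ k := by
  obtain ⟨h1, h2⟩ := blow_sandwich F (n := n) (by omega : 1 ≤ N)
  set M := (N + 1) ^ (N ^ 2) with hMdef
  have hM1 : N + 1 ≤ M := by
    rw [hMdef]
    calc N + 1 = (N + 1) ^ 1 := by ring
      _ ≤ _ := Nat.pow_le_pow_right (by omega) (by nlinarith)
  have hM0 : 0 < M := by omega
  have hMn : M * M ≤ n := by
    have := (M_sq_le hN).trans hn
    rw [← hMdef] at this
    nlinarith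
  have hMr : ((M : ℝ)) ≤ n * (1 / ((N : ℝ) + 1)) := by
    rw [mul_one_div, le_div_iff₀ (by positivity)]
    have h3 : M * (N + 1) ≤ n := (Nat.mul_le_mul_left M hM1).trans hMn
    exact_mod_cast h3
  have hlow : (n : ℝ) * (1 - 1 / ((N : ℝ) + 1)) ≤ ((n / M : ℕ) : ℝ) * M := by
    have h3 : n < M * (n / M) + M := by
      have := Nat.div_add_mod n M
      have := Nat.mod_lt n hM0
      omega
    have h4 : (n : ℝ) < M * ((n / M : ℕ) : ℝ) + M := by exact_mod_cast h3
    nlinarith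
  have hup : (((n / M : ℕ) : ℝ) + 1) * M ≤ (n : ℝ) * (1 + 1 / ((N : ℝ) + 1)) := by
    have h3 : (n / M) * M ≤ n := Nat.div_mul_le_self n M
    have h4 : ((n / M : ℕ) : ℝ) * M ≤ n := by exact_mod_cast h3
    nlinarith
  have hpos : 0 ≤ (n : ℝ) * (1 - 1 / ((N : ℝ) + 1)) := by
    apply mul_nonneg (by positivity)
    rw [sub_nonneg, div_le_one (by positivity)]
    linarith [(Nat.cast_nonneg N : (0 : ℝ) ≤ N)]
  constructor
  · refine le_trans ?_ h1
    have := T_nonneg F N
    gcongr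
  · refine h2.trans ?_
    have := T_nonneg F N
    gcongr

end Pool.Agent.T2H79.AD
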